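import Pool.Agent.helper10.NA.Defs

set_option autoImplicit false

/-! Module C (branching) of the nonamenability of the universal group. -/

namespace Pool.Agent.helper31.NA

open Pool.Agent.helper7.UG Pool.Agent.helper10.NA
open scoped commutatorElement

/-! ### groups generated by two involutions are metabelian -/

theorem derivedSeries_two_of_involutions {M : Type*} [Group M] {x y : M}
    (hx : x * x = 1) (hy : y * y = 1) (hg : Subgroup.closure {x, y} = ⊤) :
    derivedSeries M 2 = ⊥ := by
  have hx' : x⁻¹ = x := inv_eq_of_mul_eq_one_left hx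
  have hy' : y⁻¹ = y := inv_eq_of_mul_eq_one_left hy
  set Z : Subgroup M := Subgroup.zpowers (x * y) with hZ
  have hinv : (x * y)⁻¹ = y * x := by rw [mul_inv_rev, hx', hy']
  -- conjugation by x and by y inverts r
  have hcx : ∀ n : ℤ, x * (x * y) ^ n * x⁻¹ = (x * y) ^ (-n) := by
    intro n
    have h1 : x * (x * y) * x⁻¹ = (x * y)⁻¹ := by
      rw [hinv, hx', ← mul_assoc, hx, one_mul]
    rw [← conj_zpow, h1, inv_zpow, zpow_neg]
  have hcy : ∀ n : ℤ, y * (x * y) ^ n * y⁻¹ = (x * y) ^ (-n) := by
    intro n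
    have h1 : y * (x * y) * y⁻¹ = (x * y)⁻¹ := by
      rw [hinv]
      group
    rw [← conj_zpow, h1, inv_zpow, zpow_neg]
  have hmem : ∀ n : ℤ, (x * y) ^ n ∈ Z := fun n => Subgroup.zpow_mem_zpowers _ _
  have hnorm : Z.Normal := by
    have hle : Subgroup.closure {x, y} ≤ Subgroup.normalizer (Z : Set M) := by
      rw [Subgroup.closure_le]
      have key : ∀ g : M, g⁻¹ = g → (∀ n : ℤ, g * (x * y) ^ n * g⁻¹ = (x * y) ^ (-n)) →
          g ∈ Subgroup.normalizer (Z : Set M) := by
        intro g hgi hc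
        rw [Subgroup.mem_normalizer_iff]
        intro h
        constructor
        · intro hh
          obtain ⟨n, rfl⟩ := Subgroup.mem_zpowers_iff.mp hh
          rw [hc]
          exact hmem _
        · intro hh
          obtain ⟨n, hn⟩ := Subgroup.mem_zpowers_iff.mp hh
          have h2 : h = g * (x * y) ^ n * g⁻¹ := by
            rw [hn, hgi]
            have h3 : g * g = 1 := by
              nth_rewrite 1 [← hgi]
              exact inv_mul_cancel g
            calc h = (g * g) * h * (g * g) := by rw [h3, one_mul, mul_one]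
              _ = _ := by group
          rw [h2, hc]
          exact hmem _
      intro g hg'
      rcases hg' with rfl | hg'
      · exact key g hx' hcx
      · rw [Set.mem_singleton_iff] at hg'
        subst hg'
        exact key g hy' hcy
    rw [hg, top_le_iff] at hle
    exact Subgroup.normalizer_eq_top_iff.mp hle
  -- the quotient is cyclic
  have hq : ∀ g : M, (QuotientGroup.mk' Z g) ∈ Subgroup.zpowers (QuotientGroup.mk' Z x) := by
    intro g
    have hle : Subgroup.closure {x, y} ≤
        (Subgroup.zpowers (QuotientGroup.mk' Z x)).comap (QuotientGroup.mk' Z) := by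
      rw [Subgroup.closure_le]
      intro g hg'
      rcases hg' with rfl | hg'
      · exact Subgroup.mem_zpowers _
      · rw [Set.mem_singleton_iff] at hg'
        subst hg'
        show QuotientGroup.mk' Z g ∈ Subgroup.zpowers (QuotientGroup.mk' Z x)
        have h1 : QuotientGroup.mk' Z x * QuotientGroup.mk' Z g = 1 := by
          rw [← map_mul, ← MonoidHom.mem_ker, QuotientGroup.ker_mk']
          exact Subgroup.mem_zpowers _
        rw [eq_inv_of_mul_eq_one_right h1]
        exact Subgroup.inv_mem _ (Subgroup.mem_zpowers _)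
    exact hle (hg ▸ Subgroup.mem_top g)
  have hcomm : ∀ g h : M, ⁅g, h⁆ ∈ Z := by
    intro g h
    obtain ⟨m, hm⟩ := Subgroup.mem_zpowers_iff.mp (hq g)
    obtain ⟨n, hn⟩ := Subgroup.mem_zpowers_iff.mp (hq h)
    rw [← QuotientGroup.ker_mk' Z, MonoidHom.mem_ker, map_commutatorElement, ← hm, ← hn,
      commutatorElement_eq_one_iff_commute]
    exact ((Commute.refl _).zpow_left m).zpow_right n
  have h1 : derivedSeries M 1 ≤ Z := by
    rw [derivedSeries_one, commutator_def, Subgroup.commutator_le]
    exact fun g _ h _ => hcomm g h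
  rw [derivedSeries_succ, eq_bot_iff, Subgroup.commutator_le]
  intro g hg1 h hh1
  obtain ⟨m, rfl⟩ := Subgroup.mem_zpowers_iff.mp (h1 hg1)
  obtain ⟨n, rfl⟩ := Subgroup.mem_zpowers_iff.mp (h1 hh1)
  rw [Subgroup.mem_bot, commutatorElement_eq_one_iff_commute]
  exact ((Commute.refl _).zpow_left m).zpow_right n

/-- relations of `Z/2 * V` -/
structure Rel (R : Subgroup F4) : Prop where
  sq : ∀ i : Fin 4, (FreeGroup.of i * FreeGroup.of i : F4) ∈ R
  tri : (FreeGroup.of 1 * FreeGroup.of 2 * FreeGroup.of 3 : F4) ∈ R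

theorem rel_NL (Λ : Set (ℕ → Fin 3)) : Rel (NL Λ) := by
  refine ⟨of_sq_mem Λ, ?_⟩
  have h1 := of_mul_mem Λ 1 2 3 (by decide) (by decide) (by decide) (by decide)
  have h2 := (NL Λ).mul_mem h1 (of_sq_mem Λ 3)
  convert h2 using 1
  group

/-- a quotient of `F4 ⧸ R` in which a generator dies is metabelian -/
theorem derived_le {R : Subgroup F4} [R.Normal] (hR : Rel R) (H : Subgroup (F4 ⧸ R)) [H.Normal]
    (k : Fin 4) (hk : (QuotientGroup.mk (FreeGroup.of k) : F4 ⧸ R) ∈ H) :
    derivedSeries (F4 ⧸ R) 2 ≤ H := by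
  set f : F4 →* (F4 ⧸ R) ⧸ H := (QuotientGroup.mk' H).comp (QuotientGroup.mk' R) with hf
  have hsurj : Function.Surjective f :=
    (QuotientGroup.mk'_surjective H).comp (QuotientGroup.mk'_surjective R)
  have hRf : ∀ r ∈ R, f r = 1 := by
    intro r hr
    rw [hf, MonoidHom.comp_apply]
    have : QuotientGroup.mk' R r = 1 := by
      rw [← MonoidHom.mem_ker, QuotientGroup.ker_mk']
      exact hr
    rw [this, map_one]
  have hk' : f (FreeGroup.of k) = 1 := by
    rw [hf, MonoidHom.comp_apply, ← MonoidHom.mem_ker, QuotientGroup.ker_mk']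
    exact hk
  have hsq : ∀ i, f (FreeGroup.of i) * f (FreeGroup.of i) = 1 := fun i => by
    rw [← map_mul]
    exact hRf _ (hR.sq i)
  have htri : f (FreeGroup.of 1) * f (FreeGroup.of 2) * f (FreeGroup.of 3) = 1 := by
    rw [← map_mul, ← map_mul]
    exact hRf _ hR.tri
  have hinv : ∀ i, (f (FreeGroup.of i))⁻¹ = f (FreeGroup.of i) := fun i =>
    inv_eq_of_mul_eq_one_left (hsq i)
  -- generated by two involutions
  have hgen : ∃ i j : Fin 4, Subgroup.closure {f (FreeGroup.of i), f (FreeGroup.of j)} = ⊤ := by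
    have key : ∀ i j : Fin 4,
        (∀ l : Fin 4, f (FreeGroup.of l) ∈
          Subgroup.closure {f (FreeGroup.of i), f (FreeGroup.of j)}) →
        Subgroup.closure {f (FreeGroup.of i), f (FreeGroup.of j)} = ⊤ := by
      intro i j h
      rw [eq_top_iff]
      intro g hg0
      clear hg0
      obtain ⟨w, rfl⟩ := hsurj g
      induction w using FreeGroup.induction_on with
      | C1 => rw [map_one]; exact Subgroup.one_mem _
      | of l => exact h l
      | inv_of l hl => rw [map_inv]; exact Subgroup.inv_mem _ (h l)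
      | mul u v hu hv => rw [map_mul]; exact Subgroup.mul_mem _ hu hv
    have hk4 : k = 0 ∨ k = 1 ∨ k = 2 ∨ k = 3 := by
      fin_cases k <;> simp
    rcases hk4 with rfl | rfl | rfl | rfl
    · refine ⟨1, 2, key 1 2 ?_⟩
      have m1 : f (FreeGroup.of 1) ∈
          Subgroup.closure {f (FreeGroup.of 1), f (FreeGroup.of 2)} :=
        Subgroup.subset_closure (Or.inl rfl)
      have m2 : f (FreeGroup.of 2) ∈
          Subgroup.closure {f (FreeGroup.of 1), f (FreeGroup.of 2)} :=
        Subgroup.subset_closure (Or.inr rfl)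
      intro l
      have hl4 : l = 0 ∨ l = 1 ∨ l = 2 ∨ l = 3 := by
        fin_cases l <;> simp
      rcases hl4 with rfl | rfl | rfl | rfl
      · rw [hk']; exact Subgroup.one_mem _
      · exact m1
      · exact m2
      · rw [eq_inv_of_mul_eq_one_right htri]
        exact Subgroup.inv_mem _ (Subgroup.mul_mem _ m1 m2)
    · refine ⟨0, 2, key 0 2 ?_⟩
      have m1 : f (FreeGroup.of 0) ∈
          Subgroup.closure {f (FreeGroup.of 0), f (FreeGroup.of 2)} :=
        Subgroup.subset_closure (Or.inl rfl)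
      have m2 : f (FreeGroup.of 2) ∈
          Subgroup.closure {f (FreeGroup.of 0), f (FreeGroup.of 2)} :=
        Subgroup.subset_closure (Or.inr rfl)
      intro l
      have hl4 : l = 0 ∨ l = 1 ∨ l = 2 ∨ l = 3 := by
        fin_cases l <;> simp
      rcases hl4 with rfl | rfl | rfl | rfl
      · exact m1
      · rw [hk']; exact Subgroup.one_mem _
      · exact m2
      · rw [hk', one_mul] at htri
        rw [eq_inv_of_mul_eq_one_right htri]
        exact Subgroup.inv_mem _ m2
    · refine ⟨0, 1, key 0 1 ?_⟩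
      have m1 : f (FreeGroup.of 0) ∈
          Subgroup.closure {f (FreeGroup.of 0), f (FreeGroup.of 1)} :=
        Subgroup.subset_closure (Or.inl rfl)
      have m2 : f (FreeGroup.of 1) ∈
          Subgroup.closure {f (FreeGroup.of 0), f (FreeGroup.of 1)} :=
        Subgroup.subset_closure (Or.inr rfl)
      intro l
      have hl4 : l = 0 ∨ l = 1 ∨ l = 2 ∨ l = 3 := by
        fin_cases l <;> simp
      rcases hl4 with rfl | rfl | rfl | rfl
      · exact m1
      · exact m2
      · rw [hk']; exact Subgroup.one_mem _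
      · rw [hk', mul_one] at htri
        rw [eq_inv_of_mul_eq_one_right htri]
        exact Subgroup.inv_mem _ m2
    · refine ⟨0, 1, key 0 1 ?_⟩
      have m1 : f (FreeGroup.of 0) ∈
          Subgroup.closure {f (FreeGroup.of 0), f (FreeGroup.of 1)} :=
        Subgroup.subset_closure (Or.inl rfl)
      have m2 : f (FreeGroup.of 1) ∈
          Subgroup.closure {f (FreeGroup.of 0), f (FreeGroup.of 1)} :=
        Subgroup.subset_closure (Or.inr rfl)
      intro l
      have hl4 : l = 0 ∨ l = 1 ∨ l = 2 ∨ l = 3 := by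
        fin_cases l <;> simp
      rcases hl4 with rfl | rfl | rfl | rfl
      · exact m1
      · exact m2
      · rw [hk', mul_one] at htri
        rw [eq_inv_of_mul_eq_one_right htri]
        exact Subgroup.inv_mem _ m2
      · rw [hk']; exact Subgroup.one_mem _
  obtain ⟨i, j, hij⟩ := hgen
  have hd := derivedSeries_two_of_involutions (hsq i) (hsq j) hij
  have hm := map_derivedSeries_le_derivedSeries (QuotientGroup.mk' H) 2
  rw [hd, Subgroup.map_le_iff_le_comap, MonoidHom.comap_bot, QuotientGroup.ker_mk'] at hm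
  exact hm

/-! ### even elements -/

/-- the even words -/
def EE : Subgroup F4 := (SemidirectProduct.rightHom.comp Psi).ker

theorem mem_EE {w : F4} : w ∈ EE ↔ (Psi w).right = 1 := Iff.rfl

/-- the section homomorphism on even words. -/
def phi (R : Subgroup F4) [R.Normal] (z : Bool × Fin 3) : EE →* F4 ⧸ R where
  toFun w := QuotientGroup.mk ((Psi w.1).left z.1 z.2)
  map_one' := by
    show QuotientGroup.mk ((Psi (1 : F4)).left z.1 z.2) = 1
    rw [map_one]
    rfl
  map_mul' := by
    intro g h
    have hg : (Psi g.1).right = 1 := g.2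
    show QuotientGroup.mk ((Psi (g.1 * h.1)).left z.1 z.2) = _
    rw [map_mul, mul_left_apply, hg]
    rfl

/-- a letter with nontrivial section at `(false, y)`. -/
def lt (y : Fin 3) : Fin 4 := if y = 2 then 2 else 1

theorem lt_ne (y : Fin 3) : lt y ≠ 0 := by
  revert y; decide

theorem act_lt (y : Fin 3) : act (lt y) y = true := by
  revert y; decide

/-- the letter with trivial section at `(false, y)`. -/
def kl (y : Fin 3) : Fin 4 := ⟨3 - y, by omega⟩

theorem kl_ne (y : Fin 3) : kl y ≠ 0 := by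
  revert y; decide

theorem act_kl (y : Fin 3) : act (kl y) y = false := by
  revert y; decide

theorem act_kl' {y y' : Fin 3} (h : y ≠ y') : act (kl y) y' = true := by
  revert y y'; decide

theorem Psi_v_right {i : Fin 4} (hi : i ≠ 0) : (Psi (FreeGroup.of i)).right = 1 := by
  rw [Psi_of, wgen, if_neg hi]

theorem Psi_v_true {i : Fin 4} (hi : i ≠ 0) (y : Fin 3) :
    (Psi (FreeGroup.of i)).left true y = FreeGroup.of i := by
  rw [Psi_of, wgen, if_neg hi]
  rfl

theorem Psi_v_false {i : Fin 4} (hi : i ≠ 0) (y : Fin 3) :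
    (Psi (FreeGroup.of i)).left false y = if act i y then FreeGroup.of 0 else 1 := by
  rw [Psi_of, wgen, if_neg hi]
  rfl

/-- conjugation by `a` -/
theorem conj_right {w : F4} (hw : (Psi w).right = 1) :
    (Psi (FreeGroup.of 0 * w * FreeGroup.of 0)).right = 1 := by
  rw [map_mul, map_mul, mul_right_apply, mul_right_apply, hw, Psi_of, wgen, if_pos rfl]
  ext e
  cases e <;> rfl

theorem conj_left {w : F4} (hw : (Psi w).right = 1) (e : Bool) (y : Fin 3) :
    (Psi (FreeGroup.of 0 * w * FreeGroup.of 0)).left e y = (Psi w).left (!e) y := by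
  rw [map_mul, map_mul, mul_left_apply, mul_left_apply, mul_right_apply, hw, Psi_of, wgen,
    if_pos rfl]
  cases e <;> simp

theorem exists_section_true (y : Fin 3) (w : F4) :
    ∃ h : F4, (Psi h).right = 1 ∧ (Psi h).left true y = w := by
  induction w using FreeGroup.induction_on with
  | C1 => exact ⟨1, by rw [map_one]; rfl, by rw [map_one]; rfl⟩
  | of l =>
    by_cases hl : l = 0
    · refine ⟨FreeGroup.of 0 * FreeGroup.of (lt y) * FreeGroup.of 0,
        conj_right (Psi_v_right (lt_ne y)), ?_⟩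
      rw [conj_left (Psi_v_right (lt_ne y))]
      show (Psi (FreeGroup.of (lt y))).left false y = _
      rw [Psi_v_false (lt_ne y), act_lt, if_pos rfl, hl]
    · exact ⟨FreeGroup.of l, Psi_v_right hl, Psi_v_true hl y⟩
  | inv_of l hl =>
    obtain ⟨h, h1, h2⟩ := hl
    refine ⟨h⁻¹, ?_, ?_⟩
    · rw [map_inv, SemidirectProduct.inv_right, h1, inv_one]
    · have h3 := mul_left_apply (Psi h⁻¹) (Psi h) true y
      rw [← map_mul, inv_mul_cancel, map_one] at h3
      have h4 : (Psi h⁻¹).right = 1 := by rw [map_inv, SemidirectProduct.inv_right, h1, inv_one]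
      rw [h4, inv_one, Equiv.Perm.coe_one, id_eq, h2] at h3
      exact eq_inv_of_mul_eq_one_left h3.symm
  | mul u v hu hv =>
    obtain ⟨h, h1, h2⟩ := hu
    obtain ⟨h', h1', h2'⟩ := hv
    refine ⟨h * h', ?_, ?_⟩
    · rw [map_mul, mul_right_apply, h1, h1', mul_one]
    · rw [map_mul, mul_left_apply, h1, inv_one, Equiv.Perm.coe_one, id_eq, h2, h2']

theorem exists_section (e : Bool) (y : Fin 3) (w : F4) :
    ∃ h : F4, (Psi h).right = 1 ∧ (Psi h).left e y = w := by
  obtain ⟨h, h1, h2⟩ := exists_section_true y w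
  cases e with
  | true => exact ⟨h, h1, h2⟩
  | false =>
    refine ⟨FreeGroup.of 0 * h * FreeGroup.of 0, conj_right h1, ?_⟩
    rw [conj_left h1]
    exact h2

theorem phi_surjective (R : Subgroup F4) [R.Normal] (z : Bool × Fin 3) :
    Function.Surjective (phi R z) := by
  intro q
  obtain ⟨w, rfl⟩ := QuotientGroup.mk_surjective q
  obtain ⟨h, h1, h2⟩ := exists_section z.1 z.2 w
  refine ⟨⟨h, h1⟩, ?_⟩
  show QuotientGroup.mk ((Psi h).left z.1 z.2) = _
  rw [h2]

/-- the basic separation: an even word with trivial section at `z1` and section a generator at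
`z0`. -/
theorem exists_sep {z0 z1 : Bool × Fin 3} (h : z1 ≠ z0) :
    ∃ w : F4, (Psi w).right = 1 ∧ (Psi w).left z1.1 z1.2 = 1 ∧
      ∃ k : Fin 4, (Psi w).left z0.1 z0.2 = FreeGroup.of k := by
  obtain ⟨e0, y0⟩ := z0
  obtain ⟨e1, y1⟩ := z1
  have hr := Psi_v_right (kl_ne y1)
  have hf : (Psi (FreeGroup.of (kl y1))).left false y1 = 1 := by
    rw [Psi_v_false (kl_ne y1), act_kl]
    rfl
  have hk : ∀ e : Bool, (e, y0) ≠ (false, y1) →
      ∃ k : Fin 4, (Psi (FreeGroup.of (kl y1))).left e y0 = FreeGroup.of k := by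
    intro e he
    cases e with
    | true => exact ⟨kl y1, Psi_v_true (kl_ne y1) y0⟩
    | false =>
      have hy : y1 ≠ y0 := fun hh => he (by rw [hh])
      refine ⟨0, ?_⟩
      rw [Psi_v_false (kl_ne y1), act_kl' hy]
      rfl
  cases e1 with
  | false =>
    exact ⟨FreeGroup.of (kl y1), hr, hf, hk e0 (fun hh => h hh.symm)⟩
  | true =>
    refine ⟨FreeGroup.of 0 * FreeGroup.of (kl y1) * FreeGroup.of 0, conj_right hr, ?_, ?_⟩
    · rw [conj_left hr]
      exact hf
    · simp only [conj_left hr]
      apply hk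
      intro hh
      apply h
      rw [Prod.mk.injEq] at hh ⊢
      refine ⟨?_, hh.2.symm⟩
      cases e0 with
      | true => rfl
      | false => exact absurd hh.1 (by decide)

theorem map_ker_ge {R : Subgroup F4} [R.Normal] (hR : Rel R) {z0 z1 : Bool × Fin 3}
    (h : z1 ≠ z0) : derivedSeries (F4 ⧸ R) 2 ≤ ((phi R z1).ker).map (phi R z0) := by
  obtain ⟨w, hw, hw1, k, hk⟩ := exists_sep h
  have : (((phi R z1).ker).map (phi R z0)).Normal :=
    Subgroup.Normal.map inferInstance _ (phi_surjective R z0)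
  refine derived_le hR _ k ⟨⟨w, hw⟩, ?_, ?_⟩
  · show (phi R z1) ⟨w, hw⟩ = 1
    show QuotientGroup.mk ((Psi w).left z1.1 z1.2) = 1
    rw [hw1]
    rfl
  · show QuotientGroup.mk ((Psi w).left z0.1 z0.2) = _
    rw [hk]

/-- intersection of kernels over a list. -/
def PP (R : Subgroup F4) [R.Normal] : List (Bool × Fin 3) → Subgroup EE
  | [] => ⊤
  | z :: l => (phi R z).ker ⊓ PP R l

theorem PP_normal (R : Subgroup F4) [R.Normal] (l : List (Bool × Fin 3)) : (PP R l).Normal := by
  induction l with
  | nil => exact inferInstanceAs (⊤ : Subgroup EE).Normal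
  | cons z l ih =>
    have := ih
    exact inferInstanceAs ((phi R z).ker ⊓ PP R l).Normal

theorem mem_PP {R : Subgroup F4} [R.Normal] {l : List (Bool × Fin 3)} {w : EE}
    (hw : w ∈ PP R l) {z : Bool × Fin 3} (hz : z ∈ l) : (Psi w.1).left z.1 z.2 ∈ R := by
  induction l with
  | nil => simp at hz
  | cons z' l ih =>
    obtain ⟨h1, h2⟩ := hw
    rcases List.mem_cons.mp hz with rfl | hz
    · exact (QuotientGroup.eq_one_iff _).mp h1
    · exact ih h2 hz

theorem derived_le_map_PP {R : Subgroup F4} [R.Normal] (hR : Rel R) {z0 : Bool × Fin 3}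
    (l : List (Bool × Fin 3)) (hl : l ≠ []) (h : ∀ z ∈ l, z ≠ z0) :
    derivedSeries (F4 ⧸ R) (l.length + 1) ≤ (PP R l).map (phi R z0) := by
  induction l with
  | nil => exact absurd rfl hl
  | cons z l ih =>
    by_cases hl' : l = []
    · subst hl'
      have h1 := map_ker_ge hR (h z (List.mem_cons_self))
      refine h1.trans (Subgroup.map_mono ?_)
      show (phi R z).ker ≤ (phi R z).ker ⊓ ⊤
      rw [inf_top_eq]
    · have ih' := ih hl' (fun z hz => h z (List.mem_cons_of_mem _ hz))
      have h1 := map_ker_ge hR (h z (List.mem_cons_self))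
      have hlen : 2 ≤ l.length + 1 := by
        have := List.length_pos_iff.mpr hl'
        omega
      have h2 : derivedSeries (F4 ⧸ R) (l.length + 1) ≤ ((phi R z).ker).map (phi R z0) :=
        (derivedSeries_antitone _ hlen).trans h1
      have := PP_normal R l
      calc derivedSeries (F4 ⧸ R) ((z :: l).length + 1)
          = ⁅derivedSeries (F4 ⧸ R) (l.length + 1), derivedSeries (F4 ⧸ R) (l.length + 1)⁆ := by
            rw [List.length_cons, derivedSeries_succ]
        _ ≤ ⁅((phi R z).ker).map (phi R z0), (PP R l).map (phi R z0)⁆ :=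
            Subgroup.commutator_mono h2 ih'
        _ = (⁅(phi R z).ker, PP R l⁆).map (phi R z0) := (Subgroup.map_commutator _ _ _).symm
        _ ≤ ((phi R z).ker ⊓ PP R l).map (phi R z0) :=
            Subgroup.map_mono (Subgroup.commutator_le_inf _ _)

/-- all the points -/
def allZ : List (Bool × Fin 3) :=
  [(false, 0), (false, 1), (false, 2), (true, 0), (true, 1), (true, 2)]

theorem mem_allZ (z : Bool × Fin 3) : z ∈ allZ := by
  revert z; decide

theorem length_filter (z0 : Bool × Fin 3) :
    (allZ.filter (fun z => decide (z ≠ z0))).length = 5 := by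
  revert z0; decide

/-- branching for a general normal subgroup -/
theorem branch_general {R : Subgroup F4} [R.Normal] (hR : Rel R) (b : F4)
    (hb : (QuotientGroup.mk b : F4 ⧸ R) ∈ derivedSeries (F4 ⧸ R) 6) (z0 : Bool × Fin 3) :
    ∃ w : F4, (Psi w).right = 1 ∧ b⁻¹ * (Psi w).left z0.1 z0.2 ∈ R ∧
      ∀ z : Bool × Fin 3, z ≠ z0 → (Psi w).left z.1 z.2 ∈ R := by
  set l := allZ.filter (fun z => decide (z ≠ z0)) with hl
  have hlen := length_filter z0
  rw [← hl] at hlen
  have h1 := derived_le_map_PP hR (z0 := z0) l (by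
    intro h
    rw [h] at hlen
    simp at hlen) (by
    intro z hz
    rw [hl, List.mem_filter] at hz
    exact of_decide_eq_true hz.2)
  rw [hlen] at h1
  obtain ⟨w, hw, hw2⟩ := h1 hb
  refine ⟨w.1, w.2, ?_, ?_⟩
  · have h3 : (QuotientGroup.mk ((Psi w.1).left z0.1 z0.2) : F4 ⧸ R) = QuotientGroup.mk b := hw2
    exact QuotientGroup.eq.mp h3.symm
  · intro z hz
    refine mem_PP hw ?_
    rw [hl, List.mem_filter]
    exact ⟨mem_allZ z, decide_eq_true hz⟩

/-- The preimage in `F4` of the sixth derived subgroup of `F4 ⧸ NL (Lam τ)`. -/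
def BB (τ : ℕ → Finset (Fin 3)) : Subgroup F4 :=
  (derivedSeries (F4 ⧸ NL (Lam τ)) 6).comap (QuotientGroup.mk' (NL (Lam τ)))

theorem branch (τ : ℕ → Finset (Fin 3)) (b : F4) (hb : b ∈ BB (tl τ)) (e0 : Bool) (y0 : Fin 3)
    (_hy0 : y0 ∈ τ 0) :
    ∃ w : F4, (Psi w).right = 1 ∧ b⁻¹ * (Psi w).left e0 y0 ∈ NL (Lam (tl τ)) ∧
      ∀ e, ∀ y ∈ τ 0, (e, y) ≠ (e0, y0) → (Psi w).left e y ∈ NL (Lam (tl τ)) := by
  obtain ⟨w, h1, h2, h3⟩ := branch_general (rel_NL (Lam (tl τ))) b hb (e0, y0)
  exact ⟨w, h1, h2, fun e y _ he => h3 (e, y) he⟩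

end Pool.Agent.helper31.NA
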